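import Pool.Agent.N939.ME.Stm2

/-!
PROJECT ME, step ME11b: exits controlled by crossings, backward (helper383).
-/

set_option autoImplicit false
open MeasureTheory ProbabilityTheory Filter Topology Finset
open scoped Classical

namespace Pool.Agent.N383.ME

open Pool.Agent.N939.ME

/-- positive operators which preserve the constants and the integral -/
structure PosOp {S : Type} [MeasurableSpace S] (ν : Measure S) (P : (S → ℝ) → S → ℝ) : Prop where
  mem : ∀ a, MemLp a 2 ν → MemLp (P a) 2 ν
  add : ∀ a a' : S → ℝ, MemLp a 2 ν → MemLp a' 2 ν →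
    P (fun x => a x + a' x) =ᵐ[ν] fun x => P a x + P a' x
  mul : ∀ (a : S → ℝ) (c : ℝ), MemLp a 2 ν → P (fun x => c * a x) =ᵐ[ν] fun x => c * P a x
  mono : ∀ a a' : S → ℝ, MemLp a 2 ν → MemLp a' 2 ν → (∀ᵐ x ∂ν, a x ≤ a' x) →
    ∀ᵐ x ∂ν, P a x ≤ P a' x
  one : P (fun _ => 1) =ᵐ[ν] fun _ => 1
  int : ∀ a, MemLp a 2 ν → ∫ x, P a x ∂ν = ∫ x, a x ∂ν

theorem PosOp.nonneg {S : Type} [MeasurableSpace S] {ν : Measure S} [IsProbabilityMeasure ν]
    {P : (S → ℝ) → S → ℝ} (hP : PosOp ν P) (a : S → ℝ) (ha : MemLp a 2 ν)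
    (h : ∀ᵐ x ∂ν, 0 ≤ a x) : ∀ᵐ x ∂ν, 0 ≤ P a x := by
  have h0 : MemLp (fun _ : S => (0 : ℝ) * 1) 2 ν := memLp_const _
  have h1 := hP.mono (fun _ => (0 : ℝ) * 1) a h0 ha (by
    filter_upwards [h] with x hx
    rw [zero_mul]
    exact hx)
  have h2 := hP.mul (fun _ => (1 : ℝ)) 0 (memLp_const _)
  filter_upwards [h1, h2] with x h1 h2
  rw [h2, zero_mul] at h1
  exact h1

theorem core {S : Type} [MeasurableSpace S] (ν : Measure S) [IsProbabilityMeasure ν]
    (P : (S → ℝ) → S → ℝ) (hP : PosOp ν P) (b : ℕ → Set S) (hb : ∀ t, MeasurableSet (b t))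
    (A : Set S) (hA : MeasurableSet A) (ρ : ℝ) (h0 : 0 ≤ ρ) (h1 : ρ < 1) (th : ℕ → S → ℝ)
    (hth0 : th 0 = fun _ => 0)
    (hth : ∀ t, th (t + 1) = (b (t + 1) ∪ A).indicator
      (P (fun y => ((b t ∪ A)ᶜ).indicator 1 y + ρ * th t y))) (M : ℕ) :
    ∑ t ∈ range (M + 1), ∫ x, ((b t ∪ A) \ A).indicator (th t) x ∂ν ≤
      1 / (1 - ρ) * ∑ t ∈ range M,
        ∫ x, (b (t + 1)).indicator (P (((b t)ᶜ).indicator 1)) x ∂ν := by
  have hρ : 0 < 1 - ρ := by linarith
  have hsupp : ∀ t x, x ∉ b t ∪ A → th t x = 0 := by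
    intro t x hx
    cases t with
    | zero => rw [hth0]
    | succ t => rw [hth, Set.indicator_of_notMem hx]
  have hind : ∀ s : Set S, MeasurableSet s → MemLp (s.indicator (1 : S → ℝ)) 2 ν := fun s hs =>
    (memLp_const (1 : ℝ)).indicator hs
  have hinner : ∀ t, MemLp (th t) 2 ν →
      MemLp (fun y => ((b t ∪ A)ᶜ).indicator 1 y + ρ * th t y) 2 ν := fun t ht =>
    (hind _ ((hb t).union hA).compl).add (ht.const_mul ρ)
  -- bounds on the inner function
  have hle : ∀ t, (∀ᵐ x ∂ν, 0 ≤ th t x ∧ th t x ≤ 1) → ∀ᵐ x ∂ν,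
      0 ≤ ((b t ∪ A)ᶜ).indicator 1 x + ρ * th t x ∧
      ((b t ∪ A)ᶜ).indicator 1 x + ρ * th t x ≤ 1 := by
    intro t ht
    filter_upwards [ht] with x hx
    by_cases h : x ∈ b t ∪ A
    · have e1 : ((b t ∪ A)ᶜ).indicator (1 : S → ℝ) x = 0 :=
        Set.indicator_of_notMem (show x ∉ (b t ∪ A)ᶜ from fun h' => h' h) _
      rw [e1, zero_add]
      refine ⟨mul_nonneg h0 hx.1, ?_⟩
      calc ρ * th t x ≤ 1 * 1 := mul_le_mul h1.le hx.2 hx.1 zero_le_one
        _ = 1 := one_mul 1
    · have e1 : ((b t ∪ A)ᶜ).indicator (1 : S → ℝ) x = 1 := Set.indicator_of_mem h _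
      rw [e1, hsupp t x h, mul_zero, add_zero]
      exact ⟨zero_le_one, le_rfl⟩
  have hm : ∀ t, MemLp (th t) 2 ν ∧ ∀ᵐ x ∂ν, 0 ≤ th t x ∧ th t x ≤ 1 := by
    intro t
    induction t with
    | zero =>
      rw [hth0]
      exact ⟨memLp_const _, Eventually.of_forall fun x => ⟨le_rfl, zero_le_one⟩⟩
    | succ t ih =>
      have hin := hinner t ih.1
      have hlt := hle t ih.2
      constructor
      · rw [hth]
        exact (hP.mem _ hin).indicator ((hb (t + 1)).union hA)
      · have e1 := hP.nonneg _ hin (hlt.mono fun x hx => hx.1)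
        have e2 := hP.mono _ (fun _ => 1) hin (memLp_const _) (hlt.mono fun x hx => hx.2)
        filter_upwards [e1, e2, hP.one] with x e1 e2 e3
        rw [e3] at e2
        rw [hth]
        by_cases h : x ∈ b (t + 1) ∪ A
        · rw [Set.indicator_of_mem h]
          exact ⟨e1, e2⟩
        · rw [Set.indicator_of_notMem h]
          exact ⟨le_rfl, zero_le_one⟩
  -- the potential
  have key : ∀ M : ℕ, ∃ F : S → ℝ, MemLp F 2 ν ∧
      (∀ᵐ x ∂ν, (b M).indicator (fun x => ρ / (1 - ρ) * th M x) x ≤ F x) ∧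
      ∫ x, F x ∂ν = 1 / (1 - ρ) * ∑ t ∈ range M,
        ∫ x, (b (t + 1)).indicator (P (((b t)ᶜ).indicator 1)) x ∂ν -
          ∑ t ∈ range (M + 1), ∫ x, ((b t ∪ A) \ A).indicator (th t) x ∂ν := by
    intro M
    induction M with
    | zero =>
      refine ⟨fun _ => 0, memLp_const _, ?_, ?_⟩
      · refine Eventually.of_forall fun x => ?_
        rw [hth0]
        by_cases h : x ∈ b 0
        · rw [Set.indicator_of_mem h, mul_zero]
        · rw [Set.indicator_of_notMem h]
      · rw [sum_range_zero, mul_zero, sum_range_one, hth0]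
        simp
    | succ M ih =>
      obtain ⟨F, hF, hFl, hFi⟩ := ih
      have hu : MemLp ((b M).indicator fun x => ρ / (1 - ρ) * th M x) 2 ν :=
        ((hm M).1.const_mul _).indicator (hb M)
      have he := hind _ (hb M).compl
      have hPe : MemLp ((b (M + 1)).indicator (P (((b M)ᶜ).indicator 1))) 2 ν :=
        (hP.mem _ he).indicator (hb (M + 1))
      have hT : MemLp (((b (M + 1) ∪ A) \ A).indicator (th (M + 1))) 2 ν :=
        (hm (M + 1)).1.indicator (((hb (M + 1)).union hA).diff hA)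
      refine ⟨fun x => 1 / (1 - ρ) * (b (M + 1)).indicator (P (((b M)ᶜ).indicator 1)) x -
        ((b (M + 1) ∪ A) \ A).indicator (th (M + 1)) x + P F x,
        ((hPe.const_mul _).sub hT).add (hP.mem F hF), ?_, ?_⟩
      · have a1 := hP.mono _ F hu hF hFl
        have hu0 : ∀ᵐ x ∂ν, 0 ≤ (b M).indicator (fun x => ρ / (1 - ρ) * th M x) x := by
          filter_upwards [(hm M).2] with x hx
          by_cases h : x ∈ b M
          · rw [Set.indicator_of_mem h]
            exact mul_nonneg (div_nonneg h0 hρ.le) hx.1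
          · rw [Set.indicator_of_notMem h]
        have a2 := hP.nonneg F hF (by
          filter_upwards [hu0, hFl] with x h1 h2
          exact h1.trans h2)
        have hu' : MemLp (fun x => (1 - ρ) * (b M).indicator
          (fun x => ρ / (1 - ρ) * th M x) x) 2 ν := hu.const_mul _
        have a3 := hP.mono _ _ (hinner M (hm M).1) (he.add hu') (by
          filter_upwards [hle M (hm M).2] with x hx
          show ((b M ∪ A)ᶜ).indicator 1 x + ρ * th M x ≤ ((b M)ᶜ).indicator 1 x +
            (1 - ρ) * (b M).indicator (fun x => ρ / (1 - ρ) * th M x) x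
          by_cases h : x ∈ b M
          · have e1 : ((b M ∪ A)ᶜ).indicator (1 : S → ℝ) x = 0 :=
              Set.indicator_of_notMem (show x ∉ (b M ∪ A)ᶜ from fun h' => h' (Or.inl h)) _
            have e2 : ((b M)ᶜ).indicator (1 : S → ℝ) x = 0 :=
              Set.indicator_of_notMem (show x ∉ (b M)ᶜ from fun h' => h' h) _
            rw [e1, e2, Set.indicator_of_mem h, zero_add, zero_add, ← mul_assoc,
              mul_div_cancel₀ _ hρ.ne']
          · have e2 : ((b M)ᶜ).indicator (1 : S → ℝ) x = 1 := Set.indicator_of_mem h _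
            rw [e2, Set.indicator_of_notMem h, mul_zero, add_zero]
            exact hx.2)
        have a4 := hP.add _ _ he hu'
        have a5 := hP.mul _ (1 - ρ) hu
        filter_upwards [a1, a2, a3, a4, a5, (hm (M + 1)).2] with x a1 a2 a3 a4 a5 a6
        have a3' : P (fun y => ((b M ∪ A)ᶜ).indicator 1 y + ρ * th M y) x ≤
            P (((b M)ᶜ).indicator 1) x +
              (1 - ρ) * P ((b M).indicator fun x => ρ / (1 - ρ) * th M x) x := by
          rw [← a5, ← a4]
          exact a3
        by_cases h : x ∈ b (M + 1)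
        · rw [Set.indicator_of_mem h, Set.indicator_of_mem h]
          have e3 : ((b (M + 1) ∪ A) \ A).indicator (th (M + 1)) x ≤ th (M + 1) x := by
            by_cases h' : x ∈ (b (M + 1) ∪ A) \ A
            · rw [Set.indicator_of_mem h']
            · rw [Set.indicator_of_notMem h']
              exact a6.1
          have e4 : th (M + 1) x = P (fun y => ((b M ∪ A)ᶜ).indicator 1 y + ρ * th M y) x := by
            rw [hth, Set.indicator_of_mem (show x ∈ b (M + 1) ∪ A from Or.inl h)]
          rw [← e4] at a3'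
          have e5 : 1 / (1 - ρ) * th (M + 1) x ≤ 1 / (1 - ρ) * P (((b M)ᶜ).indicator 1) x +
              P F x := by
            calc 1 / (1 - ρ) * th (M + 1) x ≤ 1 / (1 - ρ) * (P (((b M)ᶜ).indicator 1) x +
                (1 - ρ) * P ((b M).indicator fun x => ρ / (1 - ρ) * th M x) x) :=
                  mul_le_mul_of_nonneg_left a3' (one_div_nonneg.2 hρ.le)
              _ = 1 / (1 - ρ) * P (((b M)ᶜ).indicator 1) x +
                P ((b M).indicator fun x => ρ / (1 - ρ) * th M x) x := by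
                  field_simp
              _ ≤ _ := by linarith
          have e6 : ρ / (1 - ρ) * th (M + 1) x = 1 / (1 - ρ) * th (M + 1) x - th (M + 1) x := by
            field_simp
            ring
          rw [e6]
          linarith
        · have e3 : x ∉ (b (M + 1) ∪ A) \ A := by
            rintro ⟨h2 | h2, h3⟩
            · exact h h2
            · exact h3 h2
          rw [Set.indicator_of_notMem h, Set.indicator_of_notMem h, Set.indicator_of_notMem e3,
            mul_zero, sub_zero, zero_add]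
          exact a2
      · have i1 := hPe.integrable one_le_two
        have i2 := hT.integrable one_le_two
        have i3 := (hP.mem F hF).integrable one_le_two
        have i4 : Integrable (fun x => 1 / (1 - ρ) *
            (b (M + 1)).indicator (P (((b M)ᶜ).indicator 1)) x) ν := i1.const_mul _
        have i5 : Integrable (fun x => 1 / (1 - ρ) *
            (b (M + 1)).indicator (P (((b M)ᶜ).indicator 1)) x -
            ((b (M + 1) ∪ A) \ A).indicator (th (M + 1)) x) ν := i4.sub i2
        have j1 : ∫ x, (1 / (1 - ρ) * (b (M + 1)).indicator (P (((b M)ᶜ).indicator 1)) x -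
            ((b (M + 1) ∪ A) \ A).indicator (th (M + 1)) x + P F x) ∂ν =
            1 / (1 - ρ) * ∫ x, (b (M + 1)).indicator (P (((b M)ᶜ).indicator 1)) x ∂ν -
            ∫ x, ((b (M + 1) ∪ A) \ A).indicator (th (M + 1)) x ∂ν + ∫ x, F x ∂ν := by
          rw [integral_add i5 i3, integral_sub i4 i2, integral_const_mul, hP.int F hF]
        refine j1.trans ?_
        rw [hFi, sum_range_succ (fun t => ∫ x, (b (t + 1)).indicator
          (P (((b t)ᶜ).indicator 1)) x ∂ν) M, sum_range_succ (fun t =>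
          ∫ x, ((b t ∪ A) \ A).indicator (th t) x ∂ν) (M + 1)]
        ring
  obtain ⟨F, _, hFl, hFi⟩ := key M
  have hF0 : 0 ≤ ∫ x, F x ∂ν := by
    refine integral_nonneg_of_ae ?_
    filter_upwards [hFl, (hm M).2] with x h2 h3
    refine le_trans ?_ h2
    by_cases h : x ∈ b M
    · rw [Set.indicator_of_mem h]
      exact mul_nonneg (div_nonneg h0 hρ.le) h3.1
    · rw [Set.indicator_of_notMem h]
      exact le_rfl
  rw [hFi] at hF0
  linarith

theorem posBk (hTT : S_TT) (hBK1 : S_BK1) (S : Type) [MeasurableSpace S] (Q : Kernel S S)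
    [IsMarkovKernel Q] (ν : Measure S) [IsProbabilityMeasure ν] (hν : ν.bind Q = ν) :
    PosOp ν (bk Q ν) := by
  obtain ⟨k1, k2, k3, k4, k5, k6, k7, k8, k9⟩ := hBK1 S Q ν hν
  obtain ⟨t1, t2, t3, t4, t5, t6⟩ := hTT S Q ν hν
  refine ⟨fun a ha => (k1 a ha).2.1, k6, k7, k9, ?_, ?_⟩
  · refine k3 (fun _ => 1) _ _ (k1 _ (memLp_const _)) ⟨measurable_const, memLp_const _, ?_⟩
    intro g hg hg2
    simp only [one_mul]
    exact (t2 g (hg2.integrable one_le_two)).2.1.symm
  · intro a ha
    have h1 := (k1 a ha).2.2 (fun _ => 1) measurable_const (memLp_const _)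
    have h2 : TT Q (fun _ : S => (1 : ℝ)) = fun _ => 1 := by
      funext x
      unfold TT
      simp
    rw [h2] at h1
    simpa using h1

theorem crb (hTT : S_TT) (hBK1 : S_BK1) : S_CRB := by
  intro S _ Q _ ν _ hν b hb A hA ρ h0 h1 N
  have hP := posBk hTT hBK1 S Q ν hν
  obtain ⟨k1, -, -, -, -, -, -, -, -⟩ := hBK1 S Q ν hν
  have hρ : 0 < 1 - ρ := by linarith
  have hterm : ∀ t, 0 ≤ ∫ x, ((b t)ᶜ).indicator (TT Q ((b (t + 1)).indicator 1)) x ∂ν := by
    intro t
    refine integral_nonneg fun x => ?_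
    refine Set.indicator_nonneg (fun y _ => ?_) x
    refine integral_nonneg fun z => ?_
    exact Set.indicator_nonneg (fun _ _ => zero_le_one) z
  rcases N with _ | _ | M
  · simp
  · simp
  have h2 := core ν (bk Q ν) hP b hb A hA ρ h0 h1 (thb Q ν ρ (fun t => b t ∪ A)) rfl
    (fun t => rfl) M
  have h3 : ∀ t, ∫ x, (b (t + 1)).indicator (bk Q ν (((b t)ᶜ).indicator 1)) x ∂ν =
      ∫ x, ((b t)ᶜ).indicator (TT Q ((b (t + 1)).indicator 1)) x ∂ν := by
    intro t
    have e1 : MemLp (((b t)ᶜ).indicator (1 : S → ℝ)) 2 ν :=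
      (memLp_const (1 : ℝ)).indicator (hb t).compl
    have e2 : MemLp ((b (t + 1)).indicator (1 : S → ℝ)) 2 ν :=
      (memLp_const (1 : ℝ)).indicator (hb (t + 1))
    have e3 := (k1 _ e1).2.2 ((b (t + 1)).indicator 1)
      (measurable_one.indicator (hb (t + 1))) e2
    calc ∫ x, (b (t + 1)).indicator (bk Q ν (((b t)ᶜ).indicator 1)) x ∂ν =
        ∫ x, bk Q ν (((b t)ᶜ).indicator 1) x * (b (t + 1)).indicator 1 x ∂ν := by
          refine integral_congr_ae (Eventually.of_forall fun x => ?_)
          by_cases h : x ∈ b (t + 1)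
          · simp [Set.indicator_of_mem h]
          · simp [Set.indicator_of_notMem h]
      _ = ∫ x, ((b t)ᶜ).indicator 1 x * TT Q ((b (t + 1)).indicator 1) x ∂ν := e3
      _ = _ := by
          refine integral_congr_ae (Eventually.of_forall fun x => ?_)
          by_cases h : x ∈ (b t)ᶜ
          · simp only [Set.indicator_of_mem h, Pi.one_apply, one_mul]
          · simp only [Set.indicator_of_notMem h, zero_mul]
  show ∑ t ∈ range (M + 1), _ ≤ _ * ∑ t ∈ range (M + 1), _
  refine h2.trans (mul_le_mul_of_nonneg_left ?_ (one_div_nonneg.2 hρ.le))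
  rw [sum_range_succ _ M]
  refine le_trans (le_of_eq ?_) (le_add_of_nonneg_right (hterm M))
  exact sum_congr rfl fun t _ => h3 t

end Pool.Agent.N383.ME

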